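import Pool.Agent.Helper1.SQ.Defs

/-!
SQ-L: totient lower bound and weights.
-/

set_option autoImplicit false
open Finset

namespace Pool.Agent.Helper1.SQ

namespace LAux

lemma card_add_two_le {a : ℕ} {s : Finset ℕ} (ha : 2 ≤ a) (h2 : ∀ x ∈ s, 2 ≤ x)
    (hs : ∀ x ∈ s, x < a) : s.card + 2 ≤ a := by
  have h : s ⊆ Finset.Ico 2 a := fun x hx => Finset.mem_Ico.mpr ⟨h2 x hx, hs x hx⟩
  have := Finset.card_le_card h
  rw [Nat.card_Ico] at this
  omega

lemma prod_bounds (S : Finset ℕ) : (∀ p ∈ S, 2 ≤ p) →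
    ∏ p ∈ S, p ≤ (S.card + 1) * ∏ p ∈ S, (p - 1) ∧ S.card.factorial ≤ ∏ p ∈ S, (p - 1) := by
  induction S using Finset.induction_on_max with
  | empty => intro _; simp
  | insert a s has ih =>
    intro h2
    have hmem : a ∉ s := fun h => lt_irrefl _ (has a h)
    have h2a : 2 ≤ a := h2 a (Finset.mem_insert_self _ _)
    have h2s : ∀ x ∈ s, 2 ≤ x := fun x hx => h2 x (Finset.mem_insert_of_mem hx)
    obtain ⟨ih1, ih2⟩ := ih h2s
    have hc := card_add_two_le h2a h2s has
    rw [Finset.prod_insert hmem, Finset.prod_insert hmem, Finset.card_insert_of_notMem hmem]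
    obtain ⟨b, rfl⟩ : ∃ b, a = b + 1 := ⟨a - 1, by omega⟩
    simp only [Nat.add_sub_cancel]
    obtain ⟨P, hP⟩ : ∃ P, P = ∏ p ∈ s, p := ⟨_, rfl⟩
    obtain ⟨R, hR⟩ : ∃ R, R = ∏ p ∈ s, (p - 1) := ⟨_, rfl⟩
    rw [← hR] at ih1 ih2 ⊢
    rw [← hP] at ih1 ⊢
    constructor
    · calc (b + 1) * P ≤ (b + 1) * ((s.card + 1) * R) := Nat.mul_le_mul_left _ ih1
        _ = ((b + 1) * (s.card + 1)) * R := by ring
        _ ≤ ((s.card + 1 + 1) * b) * R := by
            apply Nat.mul_le_mul_right
            nlinarith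
        _ = (s.card + 1 + 1) * (b * R) := by ring
    · rw [Nat.factorial_succ]
      exact Nat.mul_le_mul (by omega) ih2

end LAux

open LAux in
theorem totL : TotL := by
  intro L B n hn hB hlt
  obtain ⟨h1, h2⟩ := prod_bounds n.primeFactors
    (fun p hp => (Nat.prime_of_mem_primeFactors hp).two_le)
  have hpos : 0 < ∏ p ∈ n.primeFactors, p :=
    Finset.prod_pos fun p hp => (Nat.prime_of_mem_primeFactors hp).pos
  have hfac : n.primeFactors.card.factorial ≤ Nat.totient n := by
    rw [Nat.totient_eq_div_primeFactors_mul]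
    refine h2.trans (Nat.le_mul_of_pos_left _ ?_)
    exact Nat.div_pos (Nat.le_of_dvd hn (Nat.prod_primeFactors_dvd n)) hpos
  have hs : n.primeFactors.card < L := by
    by_contra hcon
    push Not at hcon
    have := Nat.factorial_le hcon
    omega
  have h3 : n ≤ (n.primeFactors.card + 1) * Nat.totient n := by
    have h4 := Nat.totient_mul_prod_primeFactors n
    apply Nat.le_of_mul_le_mul_right _ hpos
    calc n * ∏ p ∈ n.primeFactors, p
        ≤ n * ((n.primeFactors.card + 1) * ∏ p ∈ n.primeFactors, (p - 1)) :=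
          Nat.mul_le_mul_left _ h1
      _ = (n.primeFactors.card + 1) * (n * ∏ p ∈ n.primeFactors, (p - 1)) := by ring
      _ = (n.primeFactors.card + 1) * (Nat.totient n * ∏ p ∈ n.primeFactors, p) := by rw [h4]
      _ = (n.primeFactors.card + 1) * Nat.totient n * ∏ p ∈ n.primeFactors, p := by ring
  exact h3.trans (Nat.mul_le_mul_right _ hs)

theorem wt : Wt := by
  intro k Λ m hm hlt
  rw [ArithmeticFunction.cardFactors_eq_sum_factorization]
  have h1 : ∑ p ∈ m.primeFactors, m.factorization p * Nat.log 2 p ≤ Λ := by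
    have h2 : 2 ^ (∑ p ∈ m.primeFactors, m.factorization p * Nat.log 2 p) ≤ m := by
      rw [← Finset.prod_pow_eq_pow_sum]
      conv_rhs => rw [← Nat.prod_factorization_pow_eq_self hm.ne']
      rw [Finsupp.prod, Nat.support_factorization]
      apply Finset.prod_le_prod'
      intro p hp
      rw [mul_comm, pow_mul]
      exact Nat.pow_le_pow_left (Nat.pow_log_le_self 2 (Nat.prime_of_mem_primeFactors hp).ne_zero) _
    have h3 := lt_of_le_of_lt h2 hlt
    have h4 := (Nat.pow_lt_pow_iff_right (by norm_num : 1 < 2)).mp h3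
    omega
  have h5 : k * m.factorization.sum (fun _ e => e) =
      ∑ p ∈ m.primeFactors, k * m.factorization p := by
    rw [Finsupp.sum, Nat.support_factorization, Finset.mul_sum]
  have h6 : ∑ p ∈ m.primeFactors, k * m.factorization p ≤
      ∑ p ∈ m.primeFactors, (m.factorization p * (k - Nat.log 2 p) +
        m.factorization p * Nat.log 2 p) := by
    apply Finset.sum_le_sum
    intro p _
    rw [← mul_add, mul_comm k]
    apply Nat.mul_le_mul_left
    omega
  rw [Finset.sum_add_distrib] at h6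
  omega

end Pool.Agent.Helper1.SQ
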